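import Pool.Agent.TH631.RK.Stmt

/-!
# Boundary actions that are factors of Moebius actions on closed invariant sets

The definitions used in the statement are in `Pool/Agent/TH631/RC/Defs.lean`,
`Pool/Agent/TH631/RC/Stmt.lean` and `Pool/Agent/TH631/RK/Stmt.lean`.

Let `G` be a hyperbolic group. The action of `G` on its boundary `X` (for instance a Sierpinski
carpet) is a convergence action for which every point is conical. Let `ρ : G → Isom(H^{n+1})` be any
homomorphism (it need not be discrete or faithful), let `Λ` be any closed invariant subset of the
sphere `S^n` at infinity, and let `h` be a continuous `G`-equivariant map from `Λ` to `X` with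
infinitely many values (`h` need not be injective or surjective). Then `h` is a homeomorphism, `ρ` is
properly discontinuous (so discrete with finite kernel), and `G` acts geometrically on a nonempty closed
convex subset of `H^{n+1}`, the closed convex hull of `Λ`.
-/

set_option autoImplicit false

open Filter Topology Set Pool.Agent.TH631.RC Pool.Agent.TH631.RK

namespace Pool.Agent.Results.MP_a34f2c_gt.FactorOfInvariantSet

/-- Let `α` be a uniform convergence action of the group `G` on the compact metric space `X`, let `ρ`
be an action of `G` by isometries on hyperbolic space of dimension `n + 1`, `Λ` a closed invariant set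
of points at infinity, and `h` a continuous equivariant map from `Λ` to `X` with infinitely many
values. Then `h` is a homeomorphism, and `G` acts geometrically on a nonempty closed convex subset of
hyperbolic space. -/
theorem result (n : ℕ) {G : Type} [Group G] {X : Type} [MetricSpace X] [CompactSpace X]
    (α : Action G X) (hα : IsUniform α) (ρ : HypAct G n) (Λ : Set (Sph n))
    (hΛ : IsInvariant ρ Λ) (h : Λ → X) (hc : Continuous h) (hinf : (range h).Infinite)
    (he : IsEquivariantOn ρ α Λ h) :
    IsHomeomorph h ∧ ∃ C : Set (Mink n), C.Nonempty ∧ IsConvexSet C ∧ IsGeometric ρ C :=
  main α hα ρ Λ hΛ h hc hinf he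

end Pool.Agent.Results.MP_a34f2c_gt.FactorOfInvariantSet
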